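import Pool.Agent.H812R4.HL.Defs

open Filter Topology

namespace Pool.Agent.H812R4.HL

theorem qf_nonneg {n : ℕ} (A : Matrix (Fin n) (Fin n) ℝ) (w : Fin n → ℤ) : 0 ≤ qf A w :=
  Finset.sum_nonneg fun i _ => sq_nonneg _

theorem mn_nonneg {n : ℕ} (A : Matrix (Fin n) (Fin n) ℝ) : 0 ≤ mn A :=
  Real.iInf_nonneg fun w => qf_nonneg A w.1

theorem herm_nonneg (n : ℕ) : 0 ≤ herm n :=
  Real.iSup_nonneg fun A => div_nonneg (mn_nonneg _) (Real.rpow_nonneg (abs_nonneg _) _)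

theorem herm_le (hup : S_UP) (n : ℕ) (hn : 1 ≤ n) : herm n ≤ n := by
  have : Nonempty {A : Matrix (Fin n) (Fin n) ℝ // A.det ≠ 0} := ⟨⟨1, by simp⟩⟩
  refine ciSup_le fun A => ?_
  have hp : 0 < |A.1.det| ^ ((2 : ℝ) / (n : ℝ)) := Real.rpow_pos_of_pos (abs_pos.mpr A.2) _
  rw [div_le_iff₀ hp]
  exact hup n hn A.1 A.2

theorem main (hup : S_UP) (hsup : S_SUP) (hmh : S_MH) (hvar : S_VAR) (htop : S_TOP)
    (s : ℕ → ℕ) (hs : StrictMono s) (hr : Tendsto (fun k => (s (k + 1) : ℝ) / s k) atTop (𝓝 1))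
    (x : ℝ) :
    MapClusterPt x atTop (fun k => herm (s k) / (s k : ℝ)) ↔
      liminf (fun n : ℕ => herm n / (n : ℝ)) atTop ≤ x ∧
        x ≤ limsup (fun n : ℕ => herm n / (n : ℝ)) atTop := by
  refine htop (fun n => herm n / (n : ℝ)) (fun n => div_nonneg (herm_nonneg n) n.cast_nonneg)
    (fun n hn => ?_) ?_ s hs hr x
  · have h0 : (0 : ℝ) < n := by exact_mod_cast hn
    rw [div_le_one h0]
    exact herm_le hup n hn
  · exact hvar herm (hmh) (fun n hn => herm_le hup n hn) hsup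

end Pool.Agent.H812R4.HL
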