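import Mathlib

/-! Project HL (MP_ef2672_gt): limit points of `γ_n / n`. -/

open Filter Topology

namespace Pool.Agent.H812R4.HL

/-- `|A w|^2` for an integer vector `w` -/
noncomputable def qf {n : ℕ} (A : Matrix (Fin n) (Fin n) ℝ) (w : Fin n → ℤ) : ℝ :=
  ∑ i, (Matrix.mulVec A (fun j => (w j : ℝ))) i ^ 2

/-- minimum of `|A w|^2` over the nonzero integer vectors -/
noncomputable def mn {n : ℕ} (A : Matrix (Fin n) (Fin n) ℝ) : ℝ :=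
  ⨅ w : {w : Fin n → ℤ // w ≠ 0}, qf A w.1

/-- Hermite's constant, the expression of the frozen statement S09747 -/
noncomputable def herm (n : ℕ) : ℝ :=
  ⨆ A : {A : Matrix (Fin n) (Fin n) ℝ // A.det ≠ 0}, mn A.1 / |A.1.det| ^ ((2 : ℝ) / (n : ℝ))

/-- UP: Minkowski with a cube -/
def S_UP : Prop := ∀ n : ℕ, 1 ≤ n → ∀ A : Matrix (Fin n) (Fin n) ℝ, A.det ≠ 0 →
  mn A ≤ n * |A.det| ^ ((2 : ℝ) / (n : ℝ))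

/-- BD: block diagonal matrices -/
def S_BD : Prop := ∀ m k : ℕ, 1 ≤ m → 1 ≤ k →
  ∀ (A : Matrix (Fin m) (Fin m) ℝ) (B : Matrix (Fin k) (Fin k) ℝ), A.det ≠ 0 → B.det ≠ 0 →
  ∃ C : Matrix (Fin (m + k)) (Fin (m + k)) ℝ, C.det = A.det * B.det ∧ min (mn A) (mn B) ≤ mn C

/-- SC: scaling -/
def S_SC : Prop := ∀ n : ℕ, 1 ≤ n → ∀ (A : Matrix (Fin n) (Fin n) ℝ) (s : ℝ), 0 < s →
  (s • A).det = s ^ n * A.det ∧ mn (s • A) = s ^ 2 * mn A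

/-- SUP: superadditivity -/
def S_SUP : Prop := ∀ m k : ℕ, 1 ≤ m → 1 ≤ k →
  herm m ^ m * herm k ^ k ≤ herm (m + k) ^ (m + k)

/-- CNT: few integer points in the ball of radius `√n` -/
def S_CNT : Prop := ∀ n : ℕ, 1 ≤ n →
  {x : Fin n → ℤ | ∑ i, x i ^ 2 ≤ (n : ℤ)}.Finite ∧
  ({x : Fin n → ℤ | ∑ i, x i ^ 2 ≤ (n : ℤ)}.ncard : ℝ) < 5 ^ n

/-- AV: averaging over the matrices with first row `(p, -a)` -/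
def S_AV : Prop := ∀ (n p R : ℕ), 2 ≤ n → p.Prime → (R : ℤ) < (p : ℤ) ^ 2 →
  {x : Fin n → ℤ | ∑ i, x i ^ 2 ≤ (R : ℤ)}.Finite →
  {x : Fin n → ℤ | ∑ i, x i ^ 2 ≤ (R : ℤ)}.ncard ≤ p →
  ∃ A : Matrix (Fin n) (Fin n) ℝ, A.det = p ∧ ∀ w : Fin n → ℤ, w ≠ 0 → (R : ℝ) < qf A w

/-- MH: a linear lower bound -/
def S_MH : Prop := ∀ n : ℕ, 1 ≤ n → (n : ℝ) / 100 ≤ herm n

/-- VAR: one-sided slow variation -/
def S_VAR : Prop := ∀ g : ℕ → ℝ, (∀ n : ℕ, 1 ≤ n → (n : ℝ) / 100 ≤ g n) →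
  (∀ n : ℕ, 1 ≤ n → g n ≤ n) →
  (∀ m k, 1 ≤ m → 1 ≤ k → g m ^ m * g k ^ k ≤ g (m + k) ^ (m + k)) →
  ∀ ε > 0, ∃ t > 0, ∀ n m : ℕ, 1 ≤ n → n ≤ m → (m : ℝ) ≤ (1 + t) * n →
    g n / n - ε ≤ g m / m

/-- TOP: cluster points along a sequence with ratios tending to one -/
def S_TOP : Prop := ∀ c : ℕ → ℝ, (∀ n, 0 ≤ c n) → (∀ n, 1 ≤ n → c n ≤ 1) →
  (∀ ε > 0, ∃ t > 0, ∀ n m : ℕ, 1 ≤ n → n ≤ m → (m : ℝ) ≤ (1 + t) * n → c n - ε ≤ c m) →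
  ∀ s : ℕ → ℕ, StrictMono s → Tendsto (fun k => (s (k + 1) : ℝ) / s k) atTop (𝓝 1) →
  ∀ x : ℝ, MapClusterPt x atTop (fun k => c (s k)) ↔ liminf c atTop ≤ x ∧ x ≤ limsup c atTop

end Pool.Agent.H812R4.HL
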