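import Pool.Agent.H812R4.HL.Defs

/-! AV: averaging over the matrices with first row `(p, -a)`. -/

open Filter Topology

namespace Pool.Agent.H812R4.HL

/-- the matrix with first row `(p, -a)` and the other rows those of the identity -/
noncomputable def AV_mat (m p : ℕ) (a : Fin m → ZMod p) : Matrix (Fin (m + 1)) (Fin (m + 1)) ℝ :=
  fun i j => Fin.cases (motive := fun _ => ℝ)
    (Fin.cases (motive := fun _ => ℝ) (p : ℝ) (fun j => -((a j).val : ℝ)) j)
    (fun i => if j = i.succ then 1 else 0) i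

/-- its value on an integer vector -/
def AV_vec (m p : ℕ) (a : Fin m → ZMod p) (w : Fin (m + 1) → ℤ) : Fin (m + 1) → ℤ :=
  Fin.cons ((p : ℤ) * w 0 - ∑ j, ((a j).val : ℤ) * w j.succ) (fun i => w i.succ)

lemma AV_mat_zero_zero (m p : ℕ) (a : Fin m → ZMod p) : AV_mat m p a 0 0 = p := rfl

lemma AV_mat_zero_succ (m p : ℕ) (a : Fin m → ZMod p) (j : Fin m) :
    AV_mat m p a 0 j.succ = -((a j).val : ℝ) := rfl

lemma AV_mat_succ (m p : ℕ) (a : Fin m → ZMod p) (i : Fin m) (j : Fin (m + 1)) :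
    AV_mat m p a i.succ j = if j = i.succ then 1 else 0 := rfl

lemma AV_mulVec (m p : ℕ) (a : Fin m → ZMod p) (w : Fin (m + 1) → ℤ) (i : Fin (m + 1)) :
    Matrix.mulVec (AV_mat m p a) (fun j => (w j : ℝ)) i = ((AV_vec m p a w i : ℤ) : ℝ) := by
  refine Fin.cases ?_ (fun i => ?_) i
  · unfold Matrix.mulVec dotProduct
    rw [Fin.sum_univ_succ]
    show AV_mat m p a 0 0 * (w 0 : ℝ) + ∑ i : Fin m, AV_mat m p a 0 i.succ * (w i.succ : ℝ) = _
    rw [AV_mat_zero_zero]
    simp only [AV_mat_zero_succ, AV_vec, Fin.cons_zero]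
    push_cast
    rw [sub_eq_add_neg, ← Finset.sum_neg_distrib]
    congr 1
    refine Finset.sum_congr rfl fun j _ => ?_
    ring
  · unfold Matrix.mulVec dotProduct
    simp only [AV_mat_succ, AV_vec, Fin.cons_succ]
    simp

lemma AV_det (m p : ℕ) (a : Fin m → ZMod p) : (AV_mat m p a).det = p := by
  have h : (AV_mat m p a).BlockTriangular id := by
    intro i j hij
    simp only [id] at hij
    revert hij
    refine Fin.cases ?_ (fun i => ?_) i
    · intro hij
      exact absurd hij (Fin.not_lt_zero _)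
    · intro hij
      rw [AV_mat_succ, if_neg (ne_of_lt hij)]
  rw [Matrix.det_of_isUpperTriangular h, Fin.prod_univ_succ, AV_mat_zero_zero]
  simp [AV_mat_succ]

lemma AV_qf (m p : ℕ) (a : Fin m → ZMod p) (w : Fin (m + 1) → ℤ) :
    qf (AV_mat m p a) w = ((∑ i, AV_vec m p a w i ^ 2 : ℤ) : ℝ) := by
  unfold qf
  push_cast
  refine Finset.sum_congr rfl fun i _ => ?_
  rw [AV_mulVec]

lemma AV_vec_ne (m p : ℕ) (hp : p ≠ 0) (a : Fin m → ZMod p) (w : Fin (m + 1) → ℤ) (hw : w ≠ 0) :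
    AV_vec m p a w ≠ 0 := by
  intro h
  apply hw
  have h1 : ∀ i : Fin m, w i.succ = 0 := by
    intro i
    have := congrFun h i.succ
    simpa [AV_vec] using this
  have h2 := congrFun h 0
  simp only [AV_vec, Fin.cons_zero, h1, mul_zero, Finset.sum_const_zero, sub_zero,
    Pi.zero_apply] at h2
  have hp' : (p : ℤ) ≠ 0 := by exact_mod_cast hp
  have h3 : w 0 = 0 := by
    rcases mul_eq_zero.1 h2 with h | h
    · exact absurd h hp'
    · exact h
  funext i
  refine Fin.cases ?_ (fun i => ?_) i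
  · exact h3
  · exact h1 i

lemma AV_lin (m p : ℕ) [NeZero p] (a : Fin m → ZMod p) (w : Fin (m + 1) → ℤ) :
    ((AV_vec m p a w 0 : ℤ) : ZMod p) + ∑ j, a j * ((AV_vec m p a w j.succ : ℤ) : ZMod p) = 0 := by
  simp only [AV_vec, Fin.cons_zero, Fin.cons_succ]
  push_cast
  simp only [CharP.cast_eq_zero, zero_mul, zero_sub, ZMod.natCast_val, ZMod.cast_id', id]
  rw [neg_add_cancel]

lemma AV_small (p R : ℕ) (hR : (R : ℤ) < (p : ℤ) ^ 2) (z : ℤ) (hz : z ^ 2 ≤ (R : ℤ))
    (h : ((z : ℤ) : ZMod p) = 0) : z = 0 := by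
  rw [ZMod.intCast_zmod_eq_zero_iff_dvd] at h
  by_contra h0
  obtain ⟨k, hk⟩ := h
  have hk0 : k ≠ 0 := by
    rintro rfl
    apply h0
    rw [hk, mul_zero]
  have h1 : 1 ≤ k ^ 2 := by
    have : 0 < k ^ 2 := by positivity
    linarith
  have h2 : z ^ 2 = (p : ℤ) ^ 2 * k ^ 2 := by rw [hk]; ring
  have h3 : (p : ℤ) ^ 2 ≤ (p : ℤ) ^ 2 * k ^ 2 := by
    nlinarith [sq_nonneg (p : ℤ)]
  linarith

open Classical in
lemma AV_sol (m p R : ℕ) [Fact p.Prime] (hR : (R : ℤ) < (p : ℤ) ^ 2)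
    (x : Fin (m + 1) → ℤ) (hx : ∑ i, x i ^ 2 ≤ (R : ℤ)) (hx0 : x ≠ 0) :
    (Finset.univ.filter (fun a : Fin m → ZMod p =>
      ((x 0 : ℤ) : ZMod p) + ∑ j, a j * ((x j.succ : ℤ) : ZMod p) = 0)).card ≤ p ^ (m - 1) := by
  have hsq : ∀ i, x i ^ 2 ≤ (R : ℤ) := by
    intro i
    refine le_trans ?_ hx
    exact Finset.single_le_sum (f := fun i => x i ^ 2) (fun i _ => sq_nonneg _) (Finset.mem_univ i)
  by_cases hj : ∃ j0 : Fin m, ((x j0.succ : ℤ) : ZMod p) ≠ 0
  · obtain ⟨j0, hj0⟩ := hj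
    have hcard : Fintype.card ({i : Fin m // i ≠ j0} → ZMod p) = p ^ (m - 1) := by
      rw [Fintype.card_fun, ZMod.card]
      congr 1
      simp
    rw [← hcard, ← Finset.card_univ]
    refine Finset.card_le_card_of_injOn (fun a => fun i : {i : Fin m // i ≠ j0} => a i.1)
      (fun _ _ => Finset.mem_coe.2 (Finset.mem_univ _)) ?_
    intro a ha b hb hab
    rw [Finset.mem_coe, Finset.mem_filter] at ha hb
    have hne : ∀ i, i ≠ j0 → a i = b i := fun i hi => congrFun hab ⟨i, hi⟩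
    have ha2 := ha.2
    have hb2 := hb.2
    rw [← Finset.add_sum_erase _ _ (Finset.mem_univ j0)] at ha2 hb2
    have hs : ∑ j ∈ Finset.univ.erase j0, a j * ((x j.succ : ℤ) : ZMod p) =
        ∑ j ∈ Finset.univ.erase j0, b j * ((x j.succ : ℤ) : ZMod p) := by
      refine Finset.sum_congr rfl fun j hj => ?_
      rw [hne j (Finset.ne_of_mem_erase hj)]
    rw [hs] at ha2
    have h1 : a j0 * ((x j0.succ : ℤ) : ZMod p) = b j0 * ((x j0.succ : ℤ) : ZMod p) := by
      have := ha2.trans hb2.symm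
      exact add_right_cancel (add_left_cancel this)
    have h2 : a j0 = b j0 := mul_right_cancel₀ hj0 h1
    funext i
    by_cases hi : i = j0
    · rw [hi]; exact h2
    · exact hne i hi
  · push Not at hj
    have h1 : ∀ j : Fin m, x j.succ = 0 := fun j => AV_small p R hR _ (hsq _) (hj j)
    have h2 : ((x 0 : ℤ) : ZMod p) ≠ 0 := by
      intro h
      apply hx0
      funext i
      refine Fin.cases ?_ (fun i => ?_) i
      · exact AV_small p R hR _ (hsq _) h
      · exact h1 i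
    have h3 : (Finset.univ.filter (fun a : Fin m → ZMod p =>
      ((x 0 : ℤ) : ZMod p) + ∑ j, a j * ((x j.succ : ℤ) : ZMod p) = 0)) = ∅ := by
      rw [Finset.filter_eq_empty_iff]
      intro a _ h
      apply h2
      simpa [h1] using h
    rw [h3]
    simp

open Classical in
theorem t_AV : S_AV := by
  intro n p R hn hp hR hfin hcard
  obtain ⟨m, rfl⟩ : ∃ m, n = m + 1 := ⟨n - 1, by omega⟩
  have hm : 1 ≤ m := by omega
  have : Fact p.Prime := ⟨hp⟩
  by_contra hcon
  push Not at hcon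
  -- every parameter is bad
  set B : Finset (Fin (m + 1) → ℤ) := hfin.toFinset with hB
  have hBmem : ∀ x, x ∈ B ↔ ∑ i, x i ^ 2 ≤ (R : ℤ) := by
    intro x
    rw [hB, Set.Finite.mem_toFinset, Set.mem_ofPred_eq]
  have hBcard : B.card ≤ p := by
    rw [hB, ← Set.ncard_eq_toFinset_card _ hfin]
    exact hcard
  have h0B : (0 : Fin (m + 1) → ℤ) ∈ B := by
    rw [hBmem]
    simp
  have hcover : (Finset.univ : Finset (Fin m → ZMod p)) ⊆
      (B.erase 0).biUnion (fun x => Finset.univ.filter (fun a : Fin m → ZMod p =>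
        ((x 0 : ℤ) : ZMod p) + ∑ j, a j * ((x j.succ : ℤ) : ZMod p) = 0)) := by
    intro a _
    obtain ⟨w, hw, hle⟩ := hcon (AV_mat m p a) (AV_det m p a)
    rw [Finset.mem_biUnion]
    refine ⟨AV_vec m p a w, ?_, ?_⟩
    · rw [Finset.mem_erase, hBmem]
      refine ⟨AV_vec_ne m p hp.ne_zero a w hw, ?_⟩
      rw [AV_qf] at hle
      exact_mod_cast hle
    · rw [Finset.mem_filter]
      exact ⟨Finset.mem_univ _, AV_lin m p a w⟩
  have h1 := Finset.card_le_card hcover
  have h2 : ((B.erase 0).biUnion (fun x => Finset.univ.filter (fun a : Fin m → ZMod p =>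
        ((x 0 : ℤ) : ZMod p) + ∑ j, a j * ((x j.succ : ℤ) : ZMod p) = 0))).card ≤
      (B.erase 0).card * p ^ (m - 1) := by
    refine Finset.card_biUnion_le_card_mul _ _ _ ?_
    intro x hx
    rw [Finset.mem_erase, hBmem] at hx
    exact AV_sol m p R hR x hx.2 hx.1
  have h3 : (B.erase 0).card ≤ p - 1 := by
    rw [Finset.card_erase_of_mem h0B]
    omega
  have h4 : (Finset.univ : Finset (Fin m → ZMod p)).card = p ^ m := by
    rw [Finset.card_univ, Fintype.card_fun, ZMod.card, Fintype.card_fin]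
  have hp1 : 1 ≤ p := hp.one_lt.le
  have h5 : p ^ m = p * p ^ (m - 1) := by
    conv_lhs => rw [show m = (m - 1) + 1 by omega, pow_succ]
    ring
  have h6 : (B.erase 0).card * p ^ (m - 1) ≤ (p - 1) * p ^ (m - 1) :=
    Nat.mul_le_mul_right _ h3
  have h7 : (p - 1) * p ^ (m - 1) < p * p ^ (m - 1) :=
    Nat.mul_lt_mul_of_pos_right (by omega) (pow_pos hp.pos _)
  rw [h4, h5] at h1
  omega

end Pool.Agent.H812R4.HL
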