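import Pool.Agent.H812R4.HL.Defs

/-! Block diagonal matrices. -/

open Filter Topology

namespace Pool.Agent.H812R4.HL

theorem BD_qf_nonneg {n : ℕ} (A : Matrix (Fin n) (Fin n) ℝ) (w : Fin n → ℤ) : 0 ≤ qf A w :=
  Finset.sum_nonneg fun _ _ => sq_nonneg _

theorem BD_mn_le {n : ℕ} (A : Matrix (Fin n) (Fin n) ℝ) (w : Fin n → ℤ) (hw : w ≠ 0) :
    mn A ≤ qf A w := by
  unfold mn
  refine ciInf_le (f := fun w : {w : Fin n → ℤ // w ≠ 0} => qf A w.1) ?_ ⟨w, hw⟩
  refine ⟨0, ?_⟩
  rintro _ ⟨v, rfl⟩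
  exact BD_qf_nonneg A v.1

theorem BD_qf_block {m k : ℕ} (A : Matrix (Fin m) (Fin m) ℝ) (B : Matrix (Fin k) (Fin k) ℝ)
    (w : Fin (m + k) → ℤ) :
    qf (Matrix.reindex finSumFinEquiv finSumFinEquiv (Matrix.fromBlocks A 0 0 B)) w =
      qf A (fun i => w (Fin.castAdd k i)) + qf B (fun j => w (Fin.natAdd m j)) := by
  unfold qf
  rw [Fin.sum_univ_add]
  congr 1
  · refine Finset.sum_congr rfl fun i _ => ?_
    congr 1
    unfold Matrix.mulVec dotProduct
    rw [Fin.sum_univ_add]
    have h1 : ∀ j : Fin m, (Matrix.reindex finSumFinEquiv finSumFinEquiv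
        (Matrix.fromBlocks A 0 0 B)) (Fin.castAdd k i) (Fin.castAdd k j) = A i j := by
      intro j
      simp [Matrix.reindex_apply, Matrix.submatrix_apply]
    have h2 : ∀ j : Fin k, (Matrix.reindex finSumFinEquiv finSumFinEquiv
        (Matrix.fromBlocks A 0 0 B)) (Fin.castAdd k i) (Fin.natAdd m j) = 0 := by
      intro j
      simp [Matrix.reindex_apply, Matrix.submatrix_apply]
    simp only [h1, h2, zero_mul, Finset.sum_const_zero, add_zero]
  · refine Finset.sum_congr rfl fun i _ => ?_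
    congr 1
    unfold Matrix.mulVec dotProduct
    rw [Fin.sum_univ_add]
    have h1 : ∀ j : Fin m, (Matrix.reindex finSumFinEquiv finSumFinEquiv
        (Matrix.fromBlocks A 0 0 B)) (Fin.natAdd m i) (Fin.castAdd k j) = 0 := by
      intro j
      simp [Matrix.reindex_apply, Matrix.submatrix_apply]
    have h2 : ∀ j : Fin k, (Matrix.reindex finSumFinEquiv finSumFinEquiv
        (Matrix.fromBlocks A 0 0 B)) (Fin.natAdd m i) (Fin.natAdd m j) = B i j := by
      intro j
      simp [Matrix.reindex_apply, Matrix.submatrix_apply]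
    simp only [h1, h2, zero_mul, Finset.sum_const_zero, zero_add]

theorem t_BD : S_BD := by
  intro m k hm _ A B _ _
  refine ⟨Matrix.reindex finSumFinEquiv finSumFinEquiv (Matrix.fromBlocks A 0 0 B), ?_, ?_⟩
  · rw [Matrix.det_reindex_self, Matrix.det_fromBlocks_zero₁₂]
  · have hne : Nonempty {w : Fin (m + k) → ℤ // w ≠ 0} := by
      refine ⟨⟨fun _ => 1, ?_⟩⟩
      intro h
      have h1 := congrFun h ⟨0, by omega⟩
      simp at h1
    show min (mn A) (mn B) ≤ ⨅ w : {w : Fin (m + k) → ℤ // w ≠ 0}, _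
    refine le_ciInf fun w => ?_
    obtain ⟨w, hw⟩ := w
    show _ ≤ qf _ w
    rw [BD_qf_block]
    by_cases hu : (fun i => w (Fin.castAdd k i)) = 0
    · have hv : (fun j => w (Fin.natAdd m j)) ≠ 0 := by
        intro hv
        apply hw
        funext i
        refine Fin.addCases (fun i => ?_) (fun j => ?_) i
        · exact congrFun hu i
        · exact congrFun hv j
      have h1 := BD_mn_le B _ hv
      have h2 := BD_qf_nonneg A (fun i => w (Fin.castAdd k i))
      exact (min_le_right _ _).trans (by linarith)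
    · have h1 := BD_mn_le A _ hu
      have h2 := BD_qf_nonneg B (fun j => w (Fin.natAdd m j))
      exact (min_le_left _ _).trans (by linarith)

end Pool.Agent.H812R4.HL
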