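import Pool.Agent.H812R4.HL.Defs

/-! Task CNT: few integer points in the ball of radius `√n`. -/

open Filter Topology

namespace Pool.Agent.H812R4.HL

theorem CNT_sum (n : ℕ) :
    ∑ j ∈ Finset.Icc (-(n : ℤ)) n, Real.exp (-((j : ℝ) ^ 2)) ≤
      1 + 2 * Real.exp (-1) * ∑ i ∈ Finset.range n, (Real.exp (-1) ^ 3) ^ i := by
  induction n with
  | zero => simp
  | succ n ih =>
    have h1 : Finset.Icc (-((n + 1 : ℕ) : ℤ)) ((n + 1 : ℕ) : ℤ) =
        insert (-((n + 1 : ℕ) : ℤ)) (insert ((n + 1 : ℕ) : ℤ) (Finset.Icc (-(n : ℤ)) n)) := by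
      ext j
      simp only [Finset.mem_Icc, Finset.mem_insert]
      push_cast
      omega
    have h2 : ((n + 1 : ℕ) : ℤ) ∉ Finset.Icc (-(n : ℤ)) n := by
      simp only [Finset.mem_Icc]
      push_cast
      omega
    have h3 : -((n + 1 : ℕ) : ℤ) ∉ insert ((n + 1 : ℕ) : ℤ) (Finset.Icc (-(n : ℤ)) n) := by
      simp only [Finset.mem_Icc, Finset.mem_insert]
      push_cast
      omega
    rw [h1, Finset.sum_insert h3, Finset.sum_insert h2, Finset.sum_range_succ]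
    have h4 : Real.exp (-((((n + 1 : ℕ) : ℤ) : ℝ) ^ 2)) ≤
        Real.exp (-1) * (Real.exp (-1) ^ 3) ^ n := by
      rw [← pow_mul, ← Real.exp_nat_mul, ← Real.exp_add]
      apply Real.exp_le_exp.2
      push_cast
      have h5 : (n : ℝ) ≤ (n : ℝ) ^ 2 := by
        exact_mod_cast Nat.le_self_pow (by norm_num) n
      nlinarith
    have h6 : Real.exp (-((((-((n + 1 : ℕ) : ℤ)) : ℤ) : ℝ) ^ 2)) =
        Real.exp (-((((n + 1 : ℕ) : ℤ) : ℝ) ^ 2)) := by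
      congr 2
      push_cast
      ring
    rw [h6]
    linarith

theorem CNT_bound (n : ℕ) :
    ∑ j ∈ Finset.Icc (-(n : ℤ)) n, Real.exp (-((j : ℝ) ^ 2)) ≤ 1.78 := by
  refine (CNT_sum n).trans ?_
  have h1 := Real.exp_neg_one_lt_d9
  obtain ⟨r, hr⟩ : ∃ r, r = Real.exp (-1) := ⟨_, rfl⟩
  have hr0 : 0 < r := by rw [hr]; exact Real.exp_pos _
  rw [← hr] at h1 ⊢
  have h2 : r ^ 3 ≤ 0.05 := by
    have : r ^ 3 ≤ 0.3679 ^ 3 := pow_le_pow_left₀ hr0.le (by linarith) 3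
    refine this.trans (by norm_num)
  obtain ⟨s, hs⟩ : ∃ s, s = ∑ i ∈ Finset.range n, (r ^ 3) ^ i := ⟨_, rfl⟩
  have h3 := mul_neg_geom_sum (r ^ 3) n
  rw [← hs] at h3 ⊢
  have hs0 : 0 ≤ s := by
    rw [hs]
    exact Finset.sum_nonneg fun i _ => by positivity
  have h4 : (0 : ℝ) ≤ (r ^ 3) ^ n := by positivity
  have h5 : 0.95 * s ≤ 1 := by nlinarith
  have h6 : r * s ≤ 0.3679 * s := mul_le_mul_of_nonneg_right (by linarith) hs0
  nlinarith

theorem CNT_abs (n : ℕ) (x : Fin n → ℤ) (hx : ∑ i, x i ^ 2 ≤ (n : ℤ)) (i : Fin n) :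
    -(n : ℤ) ≤ x i ∧ x i ≤ n := by
  have h1 : x i ^ 2 ≤ ∑ i, x i ^ 2 :=
    Finset.single_le_sum (f := fun i => x i ^ 2) (fun j _ => sq_nonneg (x j)) (Finset.mem_univ i)
  have h2 : x i ≤ x i ^ 2 := Int.le_self_sq _
  have h3 : -x i ≤ (-x i) ^ 2 := Int.le_self_sq _
  rw [neg_sq] at h3
  constructor <;> linarith

theorem t_CNT : S_CNT := by
  intro n hn
  classical
  obtain ⟨P, hP⟩ : ∃ P : Finset (Fin n → ℤ),
    P = Fintype.piFinset (fun _ : Fin n => Finset.Icc (-(n : ℤ)) n) := ⟨_, rfl⟩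
  have hset : {x : Fin n → ℤ | ∑ i, x i ^ 2 ≤ (n : ℤ)} =
      ((P.filter fun x => ∑ i, x i ^ 2 ≤ (n : ℤ) : Finset (Fin n → ℤ)) : Set (Fin n → ℤ)) := by
    ext x
    simp only [Finset.coe_filter, hP, Fintype.mem_piFinset, Finset.mem_Icc, Set.mem_setOf_eq]
    constructor
    · intro h
      exact ⟨CNT_abs n x h, h⟩
    · intro h
      exact h.2
  refine ⟨by rw [hset]; exact Finset.finite_toSet _, ?_⟩
  rw [hset, Set.ncard_coe_finset]
  have h1 : ((P.filter fun x => ∑ i, x i ^ 2 ≤ (n : ℤ)).card : ℝ) ≤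
      ∑ x ∈ P, Real.exp n * ∏ i, Real.exp (-((x i : ℝ) ^ 2)) := by
    calc ((P.filter fun x => ∑ i, x i ^ 2 ≤ (n : ℤ)).card : ℝ)
        = ∑ x ∈ P.filter (fun x => ∑ i, x i ^ 2 ≤ (n : ℤ)), (1 : ℝ) := by simp
      _ ≤ ∑ x ∈ P.filter (fun x => ∑ i, x i ^ 2 ≤ (n : ℤ)),
            Real.exp n * ∏ i, Real.exp (-((x i : ℝ) ^ 2)) := by
          refine Finset.sum_le_sum fun x hx => ?_
          have h2 := (Finset.mem_filter.1 hx).2
          rw [← Real.exp_sum, ← Real.exp_add, Finset.sum_neg_distrib]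
          apply Real.one_le_exp
          have h3 : ((∑ i, x i ^ 2 : ℤ) : ℝ) ≤ (n : ℝ) := by exact_mod_cast h2
          push_cast at h3
          linarith
      _ ≤ ∑ x ∈ P, Real.exp n * ∏ i, Real.exp (-((x i : ℝ) ^ 2)) := by
          refine Finset.sum_le_sum_of_subset_of_nonneg (Finset.filter_subset _ _) ?_
          intro x _ _
          positivity
  have h2 : ∑ x ∈ P, Real.exp n * ∏ i, Real.exp (-((x i : ℝ) ^ 2)) =
      (Real.exp 1 * ∑ j ∈ Finset.Icc (-(n : ℤ)) n, Real.exp (-((j : ℝ) ^ 2))) ^ n := by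
    rw [← Finset.mul_sum, mul_pow, ← Real.exp_nat_mul, mul_one, hP]
    congr 1
    rw [← Finset.prod_univ_sum (fun _ : Fin n => Finset.Icc (-(n : ℤ)) n)
      (fun _ j => Real.exp (-((j : ℝ) ^ 2)))]
    simp
  rw [h2] at h1
  refine lt_of_le_of_lt h1 ?_
  have h3 := CNT_bound n
  have h4 := Real.exp_one_lt_d9
  have h5 : 0 ≤ ∑ j ∈ Finset.Icc (-(n : ℤ)) n, Real.exp (-((j : ℝ) ^ 2)) :=
    Finset.sum_nonneg fun j _ => (Real.exp_pos _).le
  refine pow_lt_pow_left₀ ?_ (mul_nonneg (Real.exp_pos 1).le h5) (by omega)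
  have h6 : Real.exp 1 * ∑ j ∈ Finset.Icc (-(n : ℤ)) n, Real.exp (-((j : ℝ) ^ 2)) ≤
      2.7182818286 * 1.78 := mul_le_mul h4.le h3 h5 (by norm_num)
  refine lt_of_le_of_lt h6 (by norm_num)

end Pool.Agent.H812R4.HL
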