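import Pool.Agent.H812R4.HL.Defs

namespace Pool.Agent.H812R4.HL

theorem mh_key (hup : S_UP) (n : ℕ) (hn : 1 ≤ n) (A : Matrix (Fin n) (Fin n) ℝ) (hA : A.det ≠ 0)
    (c : ℝ) (hc : c ≤ mn A) : c / |A.det| ^ ((2 : ℝ) / (n : ℝ)) ≤ herm n := by
  have hb : BddAbove (Set.range fun A : {A : Matrix (Fin n) (Fin n) ℝ // A.det ≠ 0} =>
      mn A.1 / |A.1.det| ^ ((2 : ℝ) / (n : ℝ))) := by
    refine ⟨n, ?_⟩
    rintro _ ⟨A, rfl⟩
    have hp : 0 < |A.1.det| ^ ((2 : ℝ) / (n : ℝ)) := Real.rpow_pos_of_pos (abs_pos.mpr A.2) _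
    rw [div_le_iff₀ hp]
    exact hup n hn A.1 A.2
  have h1 := le_ciSup hb ⟨A, hA⟩
  have hp : 0 < |A.det| ^ ((2 : ℝ) / (n : ℝ)) := Real.rpow_pos_of_pos (abs_pos.mpr hA) _
  refine le_trans ?_ h1
  exact div_le_div_of_nonneg_right hc hp.le

theorem t_MH (hup : S_UP) (hcnt : S_CNT) (hav : S_AV) : S_MH := by
  intro n hn
  have hne : Nonempty {w : Fin n → ℤ // w ≠ 0} := by
    refine ⟨⟨fun _ => 1, fun h => ?_⟩⟩
    have := congrFun h ⟨0, by omega⟩
    simp at this
  rcases Nat.lt_or_ge n 2 with h2 | h2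
  · have hn1 : n = 1 := by omega
    subst hn1
    have h := mh_key hup 1 le_rfl 1 (by simp) 1 (by
      refine le_ciInf fun w => ?_
      unfold qf
      simp only [Matrix.one_mulVec, Finset.univ_unique, Finset.sum_singleton]
      have hw : w.1 default ≠ 0 := by
        intro h0
        apply w.2
        funext i
        rw [Subsingleton.elim i default, h0]; rfl
      have : (1 : ℤ) ≤ (w.1 default) ^ 2 := by
        have := sq_pos_of_ne_zero hw
        omega
      exact_mod_cast this)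
    simp only [Matrix.det_one, abs_one, Real.one_rpow, div_one] at h
    norm_num
    linarith
  · obtain ⟨p, hp, hp1, hp2⟩ := Nat.exists_prime_lt_and_le_two_mul (5 ^ n) (by positivity)
    obtain ⟨hf, hc⟩ := hcnt n hn
    have h5 : n < 5 ^ n := Nat.lt_pow_self (by norm_num)
    have hnp : n < p := by omega
    have hR : (n : ℤ) < (p : ℤ) ^ 2 := by
      have h1 : n < p ^ 2 := by nlinarith [hp.pos]
      exact_mod_cast h1
    have hcard : {x : Fin n → ℤ | ∑ i, x i ^ 2 ≤ ((n : ℕ) : ℤ)}.ncard ≤ p := by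
      have : ({x : Fin n → ℤ | ∑ i, x i ^ 2 ≤ (n : ℤ)}.ncard : ℝ) < ((5 ^ n : ℕ) : ℝ) := by
        push_cast
        exact hc
      have h3 : {x : Fin n → ℤ | ∑ i, x i ^ 2 ≤ (n : ℤ)}.ncard < 5 ^ n := by exact_mod_cast this
      omega
    obtain ⟨A, hA, hw⟩ := hav n p n h2 hp hR hf hcard
    have hp0 : (0 : ℝ) < p := by exact_mod_cast hp.pos
    have h := mh_key hup n hn A (by rw [hA]; exact hp0.ne') n
      (le_ciInf fun w => (hw w.1 w.2).le)
    rw [hA, abs_of_pos hp0] at h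
    refine le_trans ?_ h
    have hn0 : (0 : ℝ) < n := by exact_mod_cast hn
    have hpp : (p : ℝ) ^ ((2 : ℝ) / n) ≤ 100 := by
      have h4 : (p : ℝ) ^ 2 ≤ (100 : ℝ) ^ n := by
        have a1 : p ≤ 2 * 5 ^ n := hp2
        have a2 : p ^ 2 ≤ (2 * 5 ^ n) ^ 2 := Nat.pow_le_pow_left a1 2
        have a3 : (2 * 5 ^ n) ^ 2 = 4 * 25 ^ n := by
          rw [mul_pow, ← pow_mul, mul_comm n 2, pow_mul]; norm_num
        have a4 : 4 * 25 ^ n ≤ 4 ^ n * 25 ^ n := by
          apply Nat.mul_le_mul_right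
          calc 4 = 4 ^ 1 := by norm_num
            _ ≤ 4 ^ n := Nat.pow_le_pow_right (by norm_num) hn
        have a5 : 4 ^ n * 25 ^ n = 100 ^ n := by rw [← mul_pow]; norm_num
        have : p ^ 2 ≤ 100 ^ n := by omega
        exact_mod_cast this
      calc (p : ℝ) ^ ((2 : ℝ) / n) = ((p : ℝ) ^ 2) ^ ((1 : ℝ) / n) := by
            rw [← Real.rpow_natCast, ← Real.rpow_mul hp0.le]
            congr 1
            push_cast
            ring
        _ ≤ ((100 : ℝ) ^ n) ^ ((1 : ℝ) / n) := by gcongr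
        _ = 100 := by
            rw [← Real.rpow_natCast, ← Real.rpow_mul (by norm_num)]
            rw [mul_one_div_cancel hn0.ne', Real.rpow_one]
    have hpos : 0 < (p : ℝ) ^ ((2 : ℝ) / n) := Real.rpow_pos_of_pos hp0 _
    exact div_le_div_of_nonneg_left hn0.le hpos hpp

end Pool.Agent.H812R4.HL
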