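import Pool.Agent.H812R4.HL.Defs

namespace Pool.Agent.H812R4.HL

theorem t_SC : S_SC := by
  intro n hn A s hs
  constructor
  · rw [Matrix.det_smul, Fintype.card_fin]
  · have h : ∀ w : Fin n → ℤ, qf (s • A) w = s ^ 2 * qf A w := by
      intro w
      unfold qf
      rw [Finset.mul_sum]
      refine Finset.sum_congr rfl fun i _ => ?_
      rw [Matrix.smul_mulVec, Pi.smul_apply, smul_eq_mul, mul_pow]
    unfold mn
    simp_rw [h]
    rw [Real.mul_iInf_of_nonneg (sq_nonneg s)]

end Pool.Agent.H812R4.HL
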