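import Pool.Agent.H812R4.HL.Defs

open Filter Topology

namespace Pool.Agent.H812R4.HL

theorem SUP_qf_nonneg {n : ℕ} (A : Matrix (Fin n) (Fin n) ℝ) (w : Fin n → ℤ) : 0 ≤ qf A w := by
  unfold qf
  exact Finset.sum_nonneg fun i _ => sq_nonneg _

theorem SUP_mn_nonneg {n : ℕ} (A : Matrix (Fin n) (Fin n) ℝ) : 0 ≤ mn A :=
  Real.iInf_nonneg fun w => SUP_qf_nonneg A w.1

theorem SUP_term_nonneg {n : ℕ} (A : Matrix (Fin n) (Fin n) ℝ) :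
    0 ≤ mn A / |A.det| ^ ((2 : ℝ) / (n : ℝ)) :=
  div_nonneg (SUP_mn_nonneg A) (by positivity)

theorem SUP_herm_nonneg (n : ℕ) : 0 ≤ herm n :=
  Real.iSup_nonneg fun A => SUP_term_nonneg A.1

theorem SUP_bdd (hup : S_UP) {n : ℕ} (hn : 1 ≤ n) :
    BddAbove (Set.range fun A : {A : Matrix (Fin n) (Fin n) ℝ // A.det ≠ 0} =>
      mn A.1 / |A.1.det| ^ ((2 : ℝ) / (n : ℝ))) := by
  refine ⟨n, ?_⟩
  rintro _ ⟨A, rfl⟩
  have h1 := hup n hn A.1 A.2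
  have h2 : 0 < |A.1.det| := abs_pos.2 A.2
  show mn A.1 / |A.1.det| ^ ((2 : ℝ) / (n : ℝ)) ≤ n
  rw [div_le_iff₀ (by positivity)]
  exact h1

theorem SUP_sup {ι : Type} [Nonempty ι] (f : ι → ℝ) (hf : ∀ i, 0 ≤ f i) (m : ℕ) (hm : 1 ≤ m)
    (c X : ℝ) (hc : 0 ≤ c) (hX : 0 ≤ X) (h : ∀ i, f i ^ m * c ≤ X) :
    (⨆ i, f i) ^ m * c ≤ X := by
  rcases hc.eq_or_lt with h0 | h0
  · rw [← h0, mul_zero]; exact hX
  · have hXc : 0 ≤ X / c := by positivity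
    have hr : ((X / c) ^ ((m : ℝ)⁻¹)) ^ m = X / c :=
      Real.rpow_inv_natCast_pow hXc (by omega)
    have h1 : ∀ i, f i ≤ (X / c) ^ ((m : ℝ)⁻¹) := by
      intro i
      have h2 : f i ^ m ≤ ((X / c) ^ ((m : ℝ)⁻¹)) ^ m := by
        rw [hr, le_div_iff₀ h0]; exact h i
      exact le_of_pow_le_pow_left₀ (by omega) (by positivity) h2
    have h2 : (⨆ i, f i) ≤ (X / c) ^ ((m : ℝ)⁻¹) := ciSup_le h1
    have h3 : (⨆ i, f i) ^ m ≤ X / c := by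
      rw [← hr]
      exact pow_le_pow_left₀ (Real.iSup_nonneg hf) h2 m
    rwa [le_div_iff₀ h0] at h3

theorem SUP_pow {n : ℕ} (hn : 1 ≤ n) (x d : ℝ) (hd : 0 < d) :
    (x / d ^ ((2 : ℝ) / (n : ℝ))) ^ n = x ^ n / d ^ 2 := by
  have h1 : (d ^ ((2 : ℝ) / (n : ℝ))) ^ n = d ^ 2 := by
    have hn0 : (n : ℝ) ≠ 0 := by
      have : n ≠ 0 := by omega
      exact_mod_cast this
    rw [← Real.rpow_natCast, ← Real.rpow_mul hd.le, div_mul_cancel₀ _ hn0]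
    norm_cast
  rw [div_pow, h1]

theorem SUP_key (hup : S_UP) (hbd : S_BD) (hsc : S_SC) (m k : ℕ) (hm : 1 ≤ m) (hk : 1 ≤ k)
    (A : Matrix (Fin m) (Fin m) ℝ) (B : Matrix (Fin k) (Fin k) ℝ) (hA : A.det ≠ 0)
    (hB : B.det ≠ 0) :
    (mn A / |A.det| ^ ((2 : ℝ) / (m : ℝ))) ^ m * (mn B / |B.det| ^ ((2 : ℝ) / (k : ℝ))) ^ k ≤
      herm (m + k) ^ (m + k) := by
  have hdA : 0 < |A.det| := abs_pos.2 hA
  have hdB : 0 < |B.det| := abs_pos.2 hB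
  have hX : 0 ≤ herm (m + k) ^ (m + k) := pow_nonneg (SUP_herm_nonneg _) _
  rw [SUP_pow hm _ _ hdA, SUP_pow hk _ _ hdB]
  rcases (SUP_mn_nonneg A).eq_or_lt with h0 | hα
  · rw [← h0, zero_pow (by omega)]; simpa using hX
  rcases (SUP_mn_nonneg B).eq_or_lt with h0 | hβ
  · rw [← h0, zero_pow (by omega)]; simpa using hX
  set α := mn A with hαd
  set β := mn B with hβd
  have hsα : 0 < 1 / Real.sqrt α := by positivity
  have hsβ : 0 < 1 / Real.sqrt β := by positivity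
  obtain ⟨hA1, hA2⟩ := hsc m hm A (1 / Real.sqrt α) hsα
  obtain ⟨hB1, hB2⟩ := hsc k hk B (1 / Real.sqrt β) hsβ
  have hqα : (1 / Real.sqrt α) ^ 2 = 1 / α := by
    rw [div_pow, Real.sq_sqrt hα.le, one_pow]
  have hqβ : (1 / Real.sqrt β) ^ 2 = 1 / β := by
    rw [div_pow, Real.sq_sqrt hβ.le, one_pow]
  rw [hqα, ← hαd, one_div_mul_cancel hα.ne'] at hA2
  rw [hqβ, ← hβd, one_div_mul_cancel hβ.ne'] at hB2
  have hA' : ((1 / Real.sqrt α) • A).det ≠ 0 := by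
    rw [hA1]; exact mul_ne_zero (pow_ne_zero _ hsα.ne') hA
  have hB' : ((1 / Real.sqrt β) • B).det ≠ 0 := by
    rw [hB1]; exact mul_ne_zero (pow_ne_zero _ hsβ.ne') hB
  obtain ⟨C, hC1, hC2⟩ := hbd m k hm hk _ _ hA' hB'
  rw [hA2, hB2, min_self] at hC2
  have hC : C.det ≠ 0 := by rw [hC1]; exact mul_ne_zero hA' hB'
  have hdC : 0 < |C.det| := abs_pos.2 hC
  have h1 : mn C / |C.det| ^ ((2 : ℝ) / ((m + k : ℕ) : ℝ)) ≤ herm (m + k) :=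
    le_ciSup (SUP_bdd hup (by omega : 1 ≤ m + k)) ⟨C, hC⟩
  have h2 : (mn C / |C.det| ^ ((2 : ℝ) / ((m + k : ℕ) : ℝ))) ^ (m + k) ≤ herm (m + k) ^ (m + k) :=
    pow_le_pow_left₀ (SUP_term_nonneg C) h1 _
  rw [SUP_pow (by omega) _ _ hdC] at h2
  refine le_trans ?_ h2
  have h3 : 1 ≤ mn C ^ (m + k) := one_le_pow₀ hC2
  have h4 : |C.det| ^ 2 = (|A.det| ^ 2 / α ^ m) * (|B.det| ^ 2 / β ^ k) := by
    rw [sq_abs, hC1, hA1, hB1, sq_abs, sq_abs]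
    have e1 : ((1 / Real.sqrt α) ^ m) ^ 2 = 1 / α ^ m := by
      rw [← pow_mul, mul_comm, pow_mul, hqα, div_pow, one_pow]
    have e2 : ((1 / Real.sqrt β) ^ k) ^ 2 = 1 / β ^ k := by
      rw [← pow_mul, mul_comm, pow_mul, hqβ, div_pow, one_pow]
    calc ((1 / Real.sqrt α) ^ m * A.det * ((1 / Real.sqrt β) ^ k * B.det)) ^ 2
        = (((1 / Real.sqrt α) ^ m) ^ 2 * A.det ^ 2) * (((1 / Real.sqrt β) ^ k) ^ 2 * B.det ^ 2) := by
          ring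
      _ = _ := by rw [e1, e2]; ring
  rw [h4]
  have h5 : α ^ m / |A.det| ^ 2 * (β ^ k / |B.det| ^ 2) =
      1 / ((|A.det| ^ 2 / α ^ m) * (|B.det| ^ 2 / β ^ k)) := by
    field_simp
  rw [h5]
  have h6 : 0 < (|A.det| ^ 2 / α ^ m) * (|B.det| ^ 2 / β ^ k) := by positivity
  exact div_le_div_of_nonneg_right h3 h6.le

theorem SUP_herm_sup (n : ℕ) (hn : 1 ≤ n) (c X : ℝ) (hc : 0 ≤ c) (hX : 0 ≤ X)
    (h : ∀ A : Matrix (Fin n) (Fin n) ℝ, A.det ≠ 0 →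
      (mn A / |A.det| ^ ((2 : ℝ) / (n : ℝ))) ^ n * c ≤ X) : herm n ^ n * c ≤ X := by
  have hne : Nonempty {A : Matrix (Fin n) (Fin n) ℝ // A.det ≠ 0} := ⟨⟨1, by simp⟩⟩
  exact SUP_sup (fun A : {A : Matrix (Fin n) (Fin n) ℝ // A.det ≠ 0} =>
      mn A.1 / |A.1.det| ^ ((2 : ℝ) / (n : ℝ))) (fun A => SUP_term_nonneg A.1) n hn c X hc hX
      (fun A => h A.1 A.2)

theorem t_SUP (hup : S_UP) (hbd : S_BD) (hsc : S_SC) : S_SUP := by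
  intro m k hm hk
  have hX : 0 ≤ herm (m + k) ^ (m + k) := pow_nonneg (SUP_herm_nonneg _) _
  have hkey := SUP_key hup hbd hsc m k hm hk
  generalize herm (m + k) ^ (m + k) = X at hX hkey ⊢
  have h1 : ∀ B : Matrix (Fin k) (Fin k) ℝ, B.det ≠ 0 →
      herm m ^ m * (mn B / |B.det| ^ ((2 : ℝ) / (k : ℝ))) ^ k ≤ X := by
    intro B hB
    exact SUP_herm_sup m hm _ X (pow_nonneg (SUP_term_nonneg B) _) hX
      (fun A hA => hkey A B hA hB)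
  have h2 := SUP_herm_sup k hk (herm m ^ m) X (pow_nonneg (SUP_herm_nonneg _) _) hX
      (fun B hB => by rw [mul_comm]; exact h1 B hB)
  rw [mul_comm]
  exact h2

end Pool.Agent.H812R4.HL
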