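import Pool.Agent.H812R4.HL.Defs

open Filter Topology

namespace Pool.Agent.H812R4.HL

theorem TOP_find {s : ℕ → ℕ} (hs : StrictMono s) {K m : ℕ} (h : s K ≤ m) :
    ∃ k, K ≤ k ∧ s k ≤ m ∧ m < s (k + 1) := by
  have hK : K ≤ m := (hs.id_le K).trans h
  refine ⟨Nat.findGreatest (fun k => s k ≤ m) m, Nat.le_findGreatest hK h,
    Nat.findGreatest_spec (P := fun k => s k ≤ m) hK h, ?_⟩
  by_contra hc
  push Not at hc
  have h1 : Nat.findGreatest (fun k => s k ≤ m) m + 1 ≤ m := (hs.id_le _).trans hc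
  have h2 := Nat.le_findGreatest (P := fun k => s k ≤ m) h1 hc
  omega

theorem TOP_walk {d : ℕ → ℝ} {x ε : ℝ} (hε : 0 < ε) {k1 k2 : ℕ} (h12 : k1 ≤ k2)
    (hstep : ∀ k, k1 ≤ k → d k - ε ≤ d (k + 1)) (h1 : x - 2 * ε < d k1) (h2 : d k2 < x + 2 * ε) :
    ∃ k, k1 ≤ k ∧ |d k - x| < 3 * ε := by
  classical
  have hex : ∃ k, k1 ≤ k ∧ d k < x + 2 * ε := ⟨k2, h12, h2⟩
  obtain ⟨h3, h4⟩ := Nat.find_spec hex
  refine ⟨Nat.find hex, h3, ?_⟩
  rcases h3.eq_or_lt with h5 | h5
  · rw [← h5] at h4 ⊢
    rw [abs_lt]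
    constructor <;> linarith
  · obtain ⟨j, hj⟩ : ∃ j, Nat.find hex = j + 1 := ⟨Nat.find hex - 1, by omega⟩
    have h6 := Nat.find_min hex (m := j) (by omega)
    have h7 : x + 2 * ε ≤ d j := by
      by_contra hc
      push Not at hc
      exact h6 ⟨by omega, hc⟩
    have h8 := hstep j (by omega)
    rw [hj] at h4 ⊢
    rw [abs_lt]
    constructor <;> linarith

theorem t_TOP : S_TOP := by
  intro c hc0 hc1 hslow s hs hratio x
  have hbd1 : IsBoundedUnder (· ≤ ·) atTop c :=
    ⟨1, by
      rw [eventually_map]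
      filter_upwards [eventually_ge_atTop 1] with n hn using hc1 n hn⟩
  have hbd2 : IsBoundedUnder (· ≥ ·) atTop c :=
    ⟨0, by
      rw [eventually_map]
      filter_upwards with n using hc0 n⟩
  have hst : Tendsto s atTop atTop := hs.tendsto_atTop
  constructor
  · intro hx
    rw [mapClusterPt_iff_frequently] at hx
    constructor
    · by_contra hlt
      push Not at hlt
      obtain ⟨y, hy1, hy2⟩ := exists_between hlt
      have h1 : ∀ᶠ n in atTop, y < c n := eventually_lt_of_lt_liminf hy2 hbd2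
      have h2 : ∀ᶠ k in atTop, y < c (s k) := hst.eventually h1
      obtain ⟨k, hk1, hk2⟩ := ((hx (Set.Iio y) (Iio_mem_nhds hy1)).and_eventually h2).exists
      exact absurd (Set.mem_Iio.1 hk1) (not_lt.2 hk2.le)
    · by_contra hlt
      push Not at hlt
      obtain ⟨y, hy1, hy2⟩ := exists_between hlt
      have h1 : ∀ᶠ n in atTop, c n < y := eventually_lt_of_limsup_lt hy1 hbd1
      have h2 : ∀ᶠ k in atTop, c (s k) < y := hst.eventually h1
      obtain ⟨k, hk1, hk2⟩ := ((hx (Set.Ioi y) (Ioi_mem_nhds hy2)).and_eventually h2).exists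
      exact absurd (Set.mem_Ioi.1 hk1) (not_lt.2 hk2.le)
  · rintro ⟨hx1, hx2⟩
    have key : ∀ ε > 0, ∀ K : ℕ, ∃ k, K ≤ k ∧ |c (s k) - x| < 3 * ε := by
      intro ε hε K
      obtain ⟨t, ht, hslow'⟩ := hslow ε hε
      have h1 : ∀ᶠ k in atTop, (s (k + 1) : ℝ) / s k < 1 + t :=
        hratio.eventually (gt_mem_nhds (by linarith))
      obtain ⟨K0, hK0⟩ := eventually_atTop.1 h1
      set K1 := max (max K K0) 1 with hK1
      have hpos : ∀ k, K1 ≤ k → 1 ≤ s k := by
        intro k hk
        have : 1 ≤ k := (le_max_right _ _).trans hk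
        exact this.trans (hs.id_le k)
      have hrat : ∀ k, K1 ≤ k → (s (k + 1) : ℝ) ≤ (1 + t) * s k := by
        intro k hk
        have h2 : (0 : ℝ) < s k := by
          have := hpos k hk
          exact_mod_cast this
        have h3 := hK0 k (((le_max_right K K0).trans (le_max_left _ _)).trans hk)
        exact ((div_lt_iff₀ h2).1 h3).le
      have hstep : ∀ k, K1 ≤ k → c (s k) - ε ≤ c (s (k + 1)) := by
        intro k hk
        exact hslow' (s k) (s (k + 1)) (hpos k hk) (hs (Nat.lt_succ_self k)).le (hrat k hk)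
      -- a large index with a large value
      have hup : ∃ k1, K1 ≤ k1 ∧ x - 2 * ε < c (s k1) := by
        have h2 : limsup c atTop - ε < limsup c atTop := by linarith
        have h3 : ∃ᶠ n in atTop, limsup c atTop - ε < c n :=
          frequently_lt_of_lt_limsup hbd2.isCoboundedUnder_flip h2
        obtain ⟨m, hm1, hm2⟩ := (h3.and_eventually (eventually_ge_atTop (s K1))).exists
        obtain ⟨k, hk1, hk2, hk3⟩ := TOP_find hs hm2
        refine ⟨k + 1, by omega, ?_⟩
        have h4 := hpos k hk1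
        have h5 : (s (k + 1) : ℝ) ≤ (1 + t) * m := by
          refine (hrat k hk1).trans ?_
          have : (s k : ℝ) ≤ m := by exact_mod_cast hk2
          exact mul_le_mul_of_nonneg_left this (by linarith)
        have h6 := hslow' m (s (k + 1)) (h4.trans hk2) hk3.le h5
        linarith
      obtain ⟨k1, hk1, hk1'⟩ := hup
      have hdown : ∃ k2, k1 ≤ k2 ∧ c (s k2) < x + 2 * ε := by
        have h2 : liminf c atTop < liminf c atTop + ε := by linarith
        have h3 : ∃ᶠ n in atTop, c n < liminf c atTop + ε :=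
          frequently_lt_of_liminf_lt hbd1.isCoboundedUnder_flip h2
        obtain ⟨m, hm1, hm2⟩ := (h3.and_eventually (eventually_ge_atTop (s k1))).exists
        obtain ⟨k, hk1'', hk2, hk3⟩ := TOP_find hs hm2
        refine ⟨k, hk1'', ?_⟩
        have h4 := hpos k (hk1.trans hk1'')
        have h5 : (m : ℝ) ≤ (1 + t) * s k := by
          refine le_trans ?_ (hrat k (hk1.trans hk1''))
          exact_mod_cast hk3.le
        have h6 := hslow' (s k) m h4 hk2 h5
        linarith
      obtain ⟨k2, hk2, hk2'⟩ := hdown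
      obtain ⟨k, hk, hk'⟩ := TOP_walk (d := fun k => c (s k)) hε hk2
        (fun k hk => hstep k (hk1.trans hk)) hk1' hk2'
      exact ⟨k, (((le_max_left K K0).trans (le_max_left _ _)).trans hk1).trans hk, hk'⟩
    rw [mapClusterPt_iff_frequently]
    intro S hS
    obtain ⟨δ, hδ, hball⟩ := Metric.mem_nhds_iff.1 hS
    rw [frequently_atTop]
    intro K
    obtain ⟨k, hk, hk'⟩ := key (δ / 3) (by positivity) K
    refine ⟨k, hk, hball ?_⟩
    rw [Metric.mem_ball, Real.dist_eq]
    linarith

end Pool.Agent.H812R4.HL
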