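import Pool.Agent.H812R4.HL.Defs

set_option autoImplicit false

open Filter Topology Matrix MeasureTheory

namespace Pool.Agent.H812R4.HL

/-- Minkowski's theorem on linear forms, strict version -/
theorem UP_mink {d : ℕ} (hd : 0 < d) (h : Matrix (Fin d) (Fin d) ℝ) (hdet : h.det ≠ 0) (r : ℝ)
    (hr : 0 < r) (hvol : |h.det| < r ^ d) :
    ∃ m : Fin d → ℤ, m ≠ 0 ∧ ∀ i, |(h *ᵥ (fun j => (m j : ℝ))) i| < r := by
  classical
  have : Nonempty (Fin d) := ⟨⟨0, hd⟩⟩
  have hli : LinearIndependent ℝ (fun j => hᵀ j) :=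
    Matrix.linearIndependent_rows_of_det_ne_zero (by rwa [det_transpose])
  let b : Module.Basis (Fin d) ℝ (Fin d → ℝ) :=
    basisOfLinearIndependentOfCardEqFinrank hli (by simp)
  have hb : ∀ j, b j = hᵀ j := fun j => by
    simp [b, basisOfLinearIndependentOfCardEqFinrank]
  have hbm : Matrix.of (fun j => b j) = hᵀ := by
    ext j i
    rw [Matrix.of_apply, hb]
  have hF : volume (ZSpan.fundamentalDomain b) = ENNReal.ofReal |h.det| := by
    rw [ZSpan.volume_fundamentalDomain]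
    congr 2
    rw [← det_transpose h, ← hbm]
  set s : Set (Fin d → ℝ) := Metric.ball 0 r with hs
  have hsvol : volume s = ENNReal.ofReal ((2 * r) ^ d) := by
    rw [hs, Real.volume_pi_ball _ hr, Fintype.card_fin]
  have hlt : volume (ZSpan.fundamentalDomain b) * 2 ^ Module.finrank ℝ (Fin d → ℝ) < volume s := by
    rw [hF, hsvol, Module.finrank_fin_fun]
    have e2 : (2 : ENNReal) ^ d = ENNReal.ofReal (2 ^ d) := by
      rw [ENNReal.ofReal_pow (by norm_num)]
      norm_num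
    rw [e2, ← ENNReal.ofReal_mul (abs_nonneg _), ENNReal.ofReal_lt_ofReal_iff (by positivity),
      mul_pow]
    have h2d : (0 : ℝ) < 2 ^ d := by positivity
    nlinarith [mul_lt_mul_of_pos_right hvol h2d]
  have hsymm : ∀ x ∈ s, -x ∈ s := by
    intro x hx
    rw [hs, mem_ball_zero_iff] at hx ⊢
    rwa [norm_neg]
  have hconv : Convex ℝ s := convex_ball _ _
  have hcount : Countable ↥(Submodule.span ℤ (Set.range ⇑b)).toAddSubgroup := by
    have hsurj : Function.Surjective (fun m : Fin d → ℤ =>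
        (⟨∑ j, m j • b j, (Submodule.mem_span_range_iff_exists_fun ℤ).2 ⟨m, rfl⟩⟩ :
          ↥(Submodule.span ℤ (Set.range ⇑b)).toAddSubgroup)) := by
      intro x
      obtain ⟨m, hm⟩ := (Submodule.mem_span_range_iff_exists_fun ℤ).1 x.2
      exact ⟨m, Subtype.ext hm⟩
    exact hsurj.countable
  obtain ⟨x, hx0, hxs⟩ := exists_ne_zero_mem_lattice_of_measure_mul_two_pow_lt_measure
    (ZSpan.isAddFundamentalDomain' b volume) hsymm hconv hlt
  obtain ⟨m, hm⟩ := (Submodule.mem_span_range_iff_exists_fun ℤ).1 x.2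
  have hmx : h *ᵥ (fun j => (m j : ℝ)) = (x : Fin d → ℝ) := by
    rw [← hm]
    funext i
    simp only [mulVec, dotProduct, Finset.sum_apply, Pi.smul_apply, zsmul_eq_mul, hb,
      transpose_apply]
    exact Finset.sum_congr rfl fun j _ => mul_comm _ _
  refine ⟨m, ?_, ?_⟩
  · rintro rfl
    apply hx0
    apply Subtype.ext
    rw [← hmx]
    have : (fun j => (((0 : Fin d → ℤ) j : ℤ) : ℝ)) = 0 := by funext i; simp
    rw [this, mulVec_zero]
    rfl
  · intro i
    rw [hmx]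
    rw [hs, mem_ball_zero_iff] at hxs
    exact (norm_le_pi_norm _ i).trans_lt hxs

theorem UP_qf_nonneg {n : ℕ} (A : Matrix (Fin n) (Fin n) ℝ) (w : Fin n → ℤ) : 0 ≤ qf A w :=
  Finset.sum_nonneg fun _ _ => sq_nonneg _

theorem t_UP : S_UP := by
  intro n hn A hA
  have hkey : ∀ r : ℝ, 0 < r → |A.det| < r ^ n → mn A ≤ n * r ^ 2 := by
    intro r hr hvol
    obtain ⟨m, hm0, hm⟩ := UP_mink hn A hA r hr hvol
    have hbdd : BddBelow (Set.range fun w : {w : Fin n → ℤ // w ≠ 0} => qf A w.1) :=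
      ⟨0, by rintro _ ⟨w, rfl⟩; exact UP_qf_nonneg A _⟩
    refine (ciInf_le hbdd ⟨m, hm0⟩).trans ?_
    show qf A m ≤ n * r ^ 2
    unfold qf
    calc ∑ i, (Matrix.mulVec A (fun j => (m j : ℝ))) i ^ 2 ≤ ∑ _i : Fin n, r ^ 2 := by
          refine Finset.sum_le_sum fun i _ => ?_
          rw [← sq_abs]
          exact pow_le_pow_left₀ (abs_nonneg _) (hm i).le 2
      _ = n * r ^ 2 := by simp
  have hn0 : (0 : ℝ) < n := by exact_mod_cast hn
  obtain ⟨δ, hδ⟩ : ∃ δ : ℝ, δ = |A.det| ^ ((1 : ℝ) / n) := ⟨_, rfl⟩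
  have hdpos : 0 < |A.det| := abs_pos.mpr hA
  have hδ0 : 0 < δ := by rw [hδ]; positivity
  have hδn : δ ^ n = |A.det| := by
    rw [hδ, ← Real.rpow_natCast, ← Real.rpow_mul hdpos.le]
    rw [one_div_mul_cancel hn0.ne', Real.rpow_one]
  have hδ2 : |A.det| ^ ((2 : ℝ) / n) = δ ^ 2 := by
    rw [hδ, ← Real.rpow_natCast, ← Real.rpow_mul hdpos.le]
    congr 1
    push_cast
    ring
  rw [hδ2]
  by_contra hcon
  push Not at hcon
  have h1 : δ ^ 2 < mn A / n := by rw [lt_div_iff₀ hn0]; linarith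
  obtain ⟨q, hq⟩ : ∃ q : ℝ, q = (mn A / n + δ ^ 2) / 2 := ⟨_, rfl⟩
  have hq1 : δ ^ 2 < q := by rw [hq]; linarith
  have hq2 : q < mn A / n := by rw [hq]; linarith
  have hq0 : 0 < q := lt_of_le_of_lt (sq_nonneg δ) hq1
  have hsq : Real.sqrt q ^ 2 = q := Real.sq_sqrt hq0.le
  have hr : δ < Real.sqrt q := Real.lt_sqrt_of_sq_lt hq1
  have := hkey (Real.sqrt q) (by positivity) (by
    rw [← hδn]
    exact pow_lt_pow_left₀ hr hδ0.le (by omega))
  rw [hsq] at this
  rw [lt_div_iff₀ hn0] at hq2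
  linarith

end Pool.Agent.H812R4.HL
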