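import Pool.Agent.H812R4.HL.Defs

open Filter Topology

namespace Pool.Agent.H812R4.HL

/-- the error term -/
noncomputable def VAR_h (u : ℝ) : ℝ :=
  -((1 - u) * Real.log (1 - u)) - u * Real.log u + u * Real.log 100

theorem VAR_cont : Continuous VAR_h := by
  unfold VAR_h
  have h1 : Continuous fun x : ℝ => (1 - x) * Real.log (1 - x) :=
    Real.continuous_mul_log.comp (continuous_const.sub continuous_id)
  have h2 : Continuous fun x : ℝ => x * Real.log x := Real.continuous_mul_log
  exact (h1.neg.sub h2).add (continuous_id.mul continuous_const)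

theorem VAR_zero : VAR_h 0 = 0 := by
  unfold VAR_h
  simp

theorem VAR_nonneg (u : ℝ) (h0 : 0 < u) (h1 : u < 1) : 0 ≤ VAR_h u := by
  unfold VAR_h
  have a1 : (1 - u) * Real.log (1 - u) ≤ 0 :=
    mul_nonpos_of_nonneg_of_nonpos (by linarith) (Real.log_nonpos (by linarith) (by linarith))
  have a2 : u * Real.log u ≤ 0 :=
    mul_nonpos_of_nonneg_of_nonpos h0.le (Real.log_nonpos h0.le h1.le)
  have a3 : 0 ≤ u * Real.log 100 := mul_nonneg h0.le (Real.log_nonneg (by norm_num))
  linarith

theorem t_VAR : S_VAR := by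
  intro g hlo hup hsup ε hε
  have hc : ∀ᶠ u in 𝓝 (0 : ℝ), VAR_h u < ε := by
    have := VAR_cont.tendsto 0
    rw [VAR_zero] at this
    exact this.eventually (gt_mem_nhds hε)
  obtain ⟨δ, hδ, hδ2⟩ := Metric.eventually_nhds_iff.mp hc
  refine ⟨δ / 2, by linarith, ?_⟩
  intro n m hn hnm hm
  rcases Nat.eq_or_lt_of_le hnm with rfl | hlt
  · linarith
  obtain ⟨k, rfl⟩ : ∃ k, m = n + k := ⟨m - n, by omega⟩
  have hk : 1 ≤ k := by omega
  have hnR : (1 : ℝ) ≤ n := by exact_mod_cast hn
  have hkR : (1 : ℝ) ≤ k := by exact_mod_cast hk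
  have hmR : ((n + k : ℕ) : ℝ) = n + k := by push_cast; ring
  have hm1 : 1 ≤ n + k := by omega
  have gn := hlo n hn
  have gk := hlo k hk
  have gm := hlo (n + k) hm1
  have gn' := hup n hn
  have gnp : 0 < g n := by linarith
  have gkp : 0 < g k := by linarith
  rw [hmR] at hm gm ⊢
  have gmp : 0 < g (n + k) := by linarith
  have hmp : (0 : ℝ) < n + k := by linarith
  set u : ℝ := (k : ℝ) / (n + k) with hu
  have hu0 : 0 < u := by positivity
  have hu1 : u < 1 := by
    rw [hu, div_lt_one hmp]; linarith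
  have hut : u < δ := by
    rw [hu, div_lt_iff₀ hmp]
    nlinarith
  have hh : VAR_h u < ε := hδ2 (by
    rw [Real.dist_eq, sub_zero, abs_of_pos hu0]; exact hut)
  have hh0 := VAR_nonneg u hu0 hu1
  -- logarithms
  have hlog := Real.log_le_log (by positivity) (hsup n k hn hk)
  rw [Real.log_mul (by positivity) (by positivity), Real.log_pow, Real.log_pow, Real.log_pow,
    hmR] at hlog
  have hknR : (k : ℝ) = u * (n + k) := by
    rw [hu]; field_simp
  have hnnR : (n : ℝ) = (1 - u) * (n + k) := by
    rw [hu]; field_simp; ring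
  have l1 : Real.log (g n) = Real.log (g n / n) + Real.log n := by
    rw [Real.log_div gnp.ne' (by linarith)]; ring
  have l2 : Real.log k - Real.log 100 ≤ Real.log (g k) := by
    rw [← Real.log_div (by linarith) (by norm_num)]
    exact Real.log_le_log (by positivity) gk
  have l3 : Real.log (g (n + k)) = Real.log (g (n + k) / (n + k)) + Real.log (n + k) := by
    rw [Real.log_div gmp.ne' hmp.ne']; ring
  have l4 : Real.log n = Real.log (1 - u) + Real.log (n + k) := by
    conv_lhs => rw [hnnR]
    rw [Real.log_mul (by linarith) hmp.ne']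
  have l5 : Real.log k = Real.log u + Real.log (n + k) := by
    conv_lhs => rw [hknR]
    rw [Real.log_mul hu0.ne' hmp.ne']
  have hcn1 : g n / n ≤ 1 := by
    rw [div_le_one (by linarith)]; exact gn'
  have hcn0 : 0 < g n / n := by positivity
  have hcm0 : 0 < g (n + k) / (n + k) := by positivity
  have l6 : Real.log (g n / n) ≤ 0 := Real.log_nonpos hcn0.le hcn1
  have key : Real.log (g n / n) - VAR_h u ≤ Real.log (g (n + k) / (n + k)) := by
    have e1 : (n : ℝ) * Real.log (g n) + k * (Real.log k - Real.log 100) ≤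
        (n + k) * Real.log (g (n + k)) := by
      have := mul_le_mul_of_nonneg_left l2 (by linarith : (0 : ℝ) ≤ k)
      linarith
    rw [l1, l3, l4, l5] at e1
    have e2 : (n + k : ℝ) * ((1 - u) * (Real.log (g n / n) + (Real.log (1 - u) +
        Real.log (n + k))) + u * (Real.log u + Real.log (n + k) - Real.log 100)) ≤
        (n + k) * (Real.log (g (n + k) / (n + k)) + Real.log (n + k)) := by
      refine le_trans (le_of_eq ?_) e1
      rw [mul_add, ← mul_assoc, ← mul_assoc, mul_comm (n + k : ℝ) (1 - u), ← hnnR,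
        mul_comm (n + k : ℝ) u, ← hknR]
    have e3 := le_of_mul_le_mul_left e2 hmp
    unfold VAR_h
    nlinarith
  have h7 : g n / n * Real.exp (-VAR_h u) ≤ g (n + k) / (n + k) := by
    have := Real.exp_le_exp.mpr key
    rwa [sub_eq_add_neg, Real.exp_add, Real.exp_log hcn0, Real.exp_log hcm0] at this
  have h8 : 1 - VAR_h u ≤ Real.exp (-VAR_h u) := by
    have := Real.add_one_le_exp (-VAR_h u)
    linarith
  have h9 := mul_le_mul_of_nonneg_left h8 hcn0.le
  nlinarith

end Pool.Agent.H812R4.HL
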